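import Mathlib
import Pool.Agent.Helper872.Sch.Disj
set_option autoImplicit false
set_option linter.unusedSectionVars false
open scoped ENNReal InnerProductSpace Topology
open Module ContinuousLinearMap Filter
open Pool.Agent.Helper872.Sch

namespace Pool.Agent.H776R2.SchDil

universe u
variable {H K L : Type u} [NormedAddCommGroup H] [InnerProductSpace ℂ H] [CompleteSpace H]
  [NormedAddCommGroup K] [InnerProductSpace ℂ K] [CompleteSpace K]
  [NormedAddCommGroup L] [InnerProductSpace ℂ L] [CompleteSpace L]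

theorem enorm_le_of_contraction {d : K →L[ℂ] L} (hd : ∀ x, ‖d x‖ ≤ ‖x‖) (x : K) : ‖d x‖ₑ ≤ ‖x‖ₑ := by
  rw [← ofReal_norm, ← ofReal_norm]
  exact ENNReal.ofReal_le_ofReal (hd x)

/-- left multiplication by a contraction does not increase the Schatten norm -/
theorem trPow_comp_left {d : K →L[ℂ] L} (hd : ∀ x, ‖d x‖ ≤ ‖x‖) {a : H →L[ℂ] K}
    (ha : IsCompactOperator a) {p : ℝ} (hp0 : 0 < p) : trPow p (d ∘L a) ≤ trPow p a := by
  have hda : IsCompactOperator (d ∘L a) := ha.clm_comp d
  rcases le_total p 2 with hp | hp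
  · obtain ⟨ι, b, hb⟩ := exists_singBasis a (compact_star_mul ha)
    refine (trPow_le_sum b (compact_star_mul hda) hp0 hp).trans ?_
    rw [trPow_eq hb (compact_star_mul ha) hp0]
    refine ENNReal.tsum_le_tsum fun i => ?_
    gcongr
    exact enorm_le_of_contraction hd _
  · obtain ⟨ι, b, hb⟩ := exists_singBasis (d ∘L a) (compact_star_mul hda)
    rw [trPow_eq hb (compact_star_mul hda) hp0]
    refine le_trans ?_ (sum_le_trPow b.orthonormal (compact_star_mul ha) hp)
    refine ENNReal.tsum_le_tsum fun i => ?_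
    gcongr
    exact enorm_le_of_contraction hd _

/-- the operator `x ↦ ⟪b k, x⟫ v` -/
noncomputable def rk (e : H) (v : K) : H →L[ℂ] K := (innerSL ℂ e).smulRight v

theorem rk_apply (e : H) (v : K) (x : H) : rk e v x = ⟪e, x⟫_ℂ • v := rfl

theorem rk_compact (e : H) (v : K) : IsCompactOperator (rk e v) := by
  have h1 : IsCompactOperator (innerSL ℂ e) :=
    isCompactOperator_of_locallyCompactSpace_dom (innerSL ℂ e)
  exact h1.clm_comp ((ContinuousLinearMap.id ℂ ℂ).smulRight v : ℂ →L[ℂ] K)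

theorem rk_basis {ι : Type*} [DecidableEq ι] (b : HilbertBasis ι ℂ H) (k l : ι) (v : K) :
    rk (b k) v (b l) = if l = k then v else 0 := by
  rw [rk_apply]
  by_cases h : l = k
  · subst h
    rw [if_pos rfl, inner_self_eq_norm_sq_to_K, b.orthonormal.1]
    simp
  · rw [if_neg h, b.orthonormal.2 (Ne.symm h), zero_smul]

theorem rk_adjoint (e : H) (v : K) (y : K) : adjoint (rk e v) y = ⟪v, y⟫_ℂ • e := by
  refine ext_inner_right ℂ fun x => ?_
  rw [adjoint_inner_left, rk_apply, inner_smul_right, inner_smul_left, inner_conj_symm]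
  ring

theorem rk_sing {ι : Type*} (b : HilbertBasis ι ℂ H) (k : ι) (v : K) :
    SingBasis b (rk (b k) v) := by
  classical
  intro i
  rw [rk_adjoint, rk_basis]
  by_cases h : i = k
  · rw [if_pos h, h, inner_self_eq_norm_sq_to_K]
    norm_cast
  · rw [if_neg h, inner_zero_right, norm_zero]
    simp

theorem trPow_rk {ι : Type*} (b : HilbertBasis ι ℂ H) (k : ι) (v : K) {p : ℝ} (hp0 : 0 < p) :
    trPow p (rk (b k) v) = ‖v‖ₑ ^ p := by
  classical
  rw [trPow_eq (rk_sing b k v) (compact_star_mul (rk_compact _ _)) hp0, tsum_eq_single k]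
  · rw [rk_basis, if_pos rfl]
  · intro l hl
    rw [rk_basis, if_neg hl, enorm_zero, ENNReal.zero_rpow_of_pos hp0]

/-- the Schatten norm -/
noncomputable def np (p : ℝ) (a : H →L[ℂ] K) : ℝ≥0∞ := (trPow p a) ^ (1 / p)

theorem np_add_le {p : ℝ} (hp : 1 ≤ p) {a c : H →L[ℂ] K} (ha : IsCompactOperator a)
    (hc : IsCompactOperator c) : np p (a + c) ≤ np p a + np p c := trPow_add_le ha hc hp

theorem np_rk {ι : Type*} (b : HilbertBasis ι ℂ H) (k : ι) (v : K) {p : ℝ} (hp0 : 0 < p) :
    np p (rk (b k) v) = ‖v‖ₑ := by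
  rw [np, trPow_rk b k v hp0, ← ENNReal.rpow_mul, mul_one_div, div_self hp0.ne', ENNReal.rpow_one]

theorem np_zero {p : ℝ} (hp0 : 0 < p) : np p (0 : H →L[ℂ] K) = 0 := by
  rw [np, trPow_zero hp0, ENNReal.zero_rpow_of_pos (by positivity)]

theorem np_neg {p : ℝ} (hp0 : 0 < p) {a : H →L[ℂ] K} (ha : IsCompactOperator a) :
    np p (-a) = np p a := by
  rw [np, np]
  have h := trPow_smul ha hp0 (-1)
  rw [neg_smul, one_smul, enorm_neg, enorm_one, ENNReal.one_rpow, one_mul] at h
  rw [h]

theorem sum_compact {κ : Type*} (s : Finset κ) (a : κ → H →L[ℂ] K)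
    (ha : ∀ k, IsCompactOperator (a k)) : IsCompactOperator (∑ k ∈ s, a k : H →L[ℂ] K) := by
  classical
  induction s using Finset.induction_on with
  | empty =>
    rw [Finset.sum_empty]
    exact isCompactOperator_zero
  | insert k s hk ih =>
    rw [Finset.sum_insert hk]
    exact (ha k).add ih

theorem np_sum_le {κ : Type*} {p : ℝ} (hp : 1 ≤ p) (s : Finset κ) (a : κ → H →L[ℂ] K)
    (ha : ∀ k, IsCompactOperator (a k)) : np p (∑ k ∈ s, a k) ≤ ∑ k ∈ s, np p (a k) := by
  classical
  induction s using Finset.induction_on with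
  | empty =>
    rw [Finset.sum_empty, Finset.sum_empty, np_zero (by linarith)]
  | insert k s hk ih =>
    rw [Finset.sum_insert hk, Finset.sum_insert hk]
    refine (np_add_le hp (ha k) (sum_compact s a ha)).trans ?_
    gcongr

/-- the projection onto the span of `b k`, `k ∈ F` -/
noncomputable def RF {ι : Type*} (b : HilbertBasis ι ℂ H) (F : Finset ι) : H →L[ℂ] H :=
  ∑ k ∈ F, rk (b k) (b k)

theorem RF_basis {ι : Type*} [DecidableEq ι] (b : HilbertBasis ι ℂ H) (F : Finset ι) (l : ι) :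
    RF b F (b l) = if l ∈ F then b l else 0 := by
  unfold RF
  rw [sum_apply]
  simp only [rk_basis]
  by_cases h : l ∈ F
  · rw [if_pos h, Finset.sum_eq_single l]
    · simp
    · intro k _ hk
      rw [if_neg (Ne.symm hk)]
    · intro hn
      exact absurd h hn
  · rw [if_neg h]
    refine Finset.sum_eq_zero fun k hk => ?_
    rw [if_neg]
    rintro rfl
    exact h hk

theorem comp_RF {ι : Type*} (b : HilbertBasis ι ℂ H) (F : Finset ι) (a : H →L[ℂ] K) :
    a ∘L RF b F = ∑ k ∈ F, rk (b k) (a (b k)) := by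
  unfold RF
  ext x
  simp only [ContinuousLinearMap.comp_apply, sum_apply, map_sum, rk_apply, map_smul]

/-- the part of `h` off the first vectors -/
theorem sing_tail {ι : Type*} {b : HilbertBasis ι ℂ H} {a : H →L[ℂ] K} (hb : SingBasis b a)
    (F : Finset ι) : SingBasis b (a - a ∘L RF b F) := by
  classical
  intro i
  by_cases h : i ∈ F
  · have h1 : (a - a ∘L RF b F) (b i) = 0 := by
      rw [sub_apply, ContinuousLinearMap.comp_apply, RF_basis, if_pos h, sub_self]
    rw [h1]
    simp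
  · have h1 : (a - a ∘L RF b F) (b i) = a (b i) := by
      rw [sub_apply, ContinuousLinearMap.comp_apply, RF_basis, if_neg h, map_zero, sub_zero]
    rw [h1]
    apply ext_basis b
    intro j
    rw [adjoint_inner_right, inner_smul_right]
    by_cases hj : j ∈ F
    · have h2 : (a - a ∘L RF b F) (b j) = 0 := by
        rw [sub_apply, ContinuousLinearMap.comp_apply, RF_basis, if_pos hj, sub_self]
      have hij : j ≠ i := by
        rintro rfl
        exact h hj
      rw [h2, inner_zero_left, b.orthonormal.2 hij, mul_zero]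
    · have h2 : (a - a ∘L RF b F) (b j) = a (b j) := by
        rw [sub_apply, ContinuousLinearMap.comp_apply, RF_basis, if_neg hj, map_zero, sub_zero]
      rw [h2, ← adjoint_inner_right, hb i, inner_smul_right]

theorem tail_compact {ι : Type*} (b : HilbertBasis ι ℂ H) {a : H →L[ℂ] K}
    (ha : IsCompactOperator a) (F : Finset ι) : IsCompactOperator (a - a ∘L RF b F) :=
  ha.sub (ha.comp_clm (RF b F))

theorem trPow_tail {ι : Type*} {b : HilbertBasis ι ℂ H} {a : H →L[ℂ] K} (hb : SingBasis b a)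
    (ha : IsCompactOperator a) (F : Finset ι) {p : ℝ} (hp0 : 0 < p) :
    trPow p (a - a ∘L RF b F) = ∑' i : {i // i ∉ F}, ‖a (b i)‖ₑ ^ p := by
  classical
  rw [trPow_eq (sing_tail hb F) (compact_star_mul (tail_compact b ha F)) hp0]
  have h1 : Function.support (fun i => ‖(a - a ∘L RF b F) (b i)‖ₑ ^ p) ⊆ {i | i ∉ F} := by
    intro i hi hF
    apply hi
    have h1 : (a - a ∘L RF b F) (b i) = 0 := by
      rw [sub_apply, ContinuousLinearMap.comp_apply, RF_basis, if_pos hF, sub_self]
    simp only [h1, enorm_zero, ENNReal.zero_rpow_of_pos hp0]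
  rw [← tsum_subtype_eq_of_support_subset h1]
  congr 1
  ext ⟨i, hi⟩
  simp only
  rw [sub_apply, ContinuousLinearMap.comp_apply, RF_basis, if_neg hi, map_zero, sub_zero]

/-- the tail can be made small -/
theorem exists_tail {ι : Type*} {b : HilbertBasis ι ℂ H} {a : H →L[ℂ] K} (hb : SingBasis b a)
    (ha : IsCompactOperator a) {p : ℝ} (hp0 : 0 < p) (hfin : trPow p a < ∞) {ε : ℝ≥0∞}
    (hε : 0 < ε) : ∃ F : Finset ι, np p (a - a ∘L RF b F) < ε := by
  have h1 : ∑' i, ‖a (b i)‖ₑ ^ p ≠ ∞ := by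
    rw [← trPow_eq hb (compact_star_mul ha) hp0]
    exact hfin.ne
  have h2 := ENNReal.tendsto_tsum_compl_atTop_zero h1
  have h3 : 0 < ε ^ p := by
    by_cases hε' : ε = ∞
    · rw [hε', ENNReal.top_rpow_of_pos hp0]
      exact ENNReal.zero_lt_top
    · exact ENNReal.rpow_pos hε hε'
  obtain ⟨F, hF⟩ := (h2.eventually (gt_mem_nhds h3)).exists
  refine ⟨F, ?_⟩
  rw [np, trPow_tail hb ha F hp0]
  calc (∑' i : {i // i ∉ F}, ‖a (b i)‖ₑ ^ p) ^ (1 / p) < (ε ^ p) ^ (1 / p) := by
        apply ENNReal.rpow_lt_rpow hF (by positivity)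
    _ = ε := by rw [← ENNReal.rpow_mul, mul_one_div, div_self hp0.ne', ENNReal.rpow_one]

/-- disjoint parts of `h` are obtained from `h` by contractions on both sides -/
theorem exists_left {z h : H →L[ℂ] K} (hz1 : adjoint z ∘L (h - z) = 0) :
    ∃ c : K →L[ℂ] K, (∀ x, ‖c x‖ ≤ ‖x‖) ∧ z = c ∘L h := by
  let M : Submodule ℂ K := (LinearMap.range (z : H →ₗ[ℂ] K)).topologicalClosure
  have hM : IsClosed (M : Set K) := Submodule.isClosed_topologicalClosure _
  have : CompleteSpace M := hM.completeSpace_coe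
  refine ⟨M.starProjection, fun x => ?_, ?_⟩
  · exact (M.starProjection.le_opNorm x).trans
      (mul_le_of_le_one_left (norm_nonneg _) (Submodule.starProjection_norm_le M))
  · ext x
    rw [ContinuousLinearMap.comp_apply]
    have h1 : h x = z x + (h - z) x := by rw [sub_apply]; abel
    rw [h1, map_add]
    have h2 : M.starProjection (z x) = z x := by
      rw [Submodule.starProjection_eq_self_iff]
      exact Submodule.le_topologicalClosure _ ⟨x, rfl⟩
    have h3 : M.starProjection ((h - z) x) = 0 := by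
      rw [Submodule.starProjection_apply_eq_zero_iff]
      rw [Submodule.orthogonal_closure, Submodule.mem_orthogonal]
      rintro _ ⟨y, rfl⟩
      have h4 : (adjoint z) ((h - z) x) = 0 := congrFun (congrArg DFunLike.coe hz1) x
      have h5 : ⟪y, (adjoint z) ((h - z) x)⟫_ℂ = 0 := by rw [h4, inner_zero_right]
      rw [adjoint_inner_right] at h5
      exact h5
    rw [h2, h3, add_zero]

theorem exists_right {z h : H →L[ℂ] K} (hz2 : (h - z) ∘L adjoint z = 0) :
    ∃ c : H →L[ℂ] H, (∀ x, ‖c x‖ ≤ ‖x‖) ∧ z = h ∘L c := by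
  have h1 : adjoint (adjoint z) ∘L (adjoint h - adjoint z) = 0 := by
    have := congrArg adjoint hz2
    rw [adjoint_comp, map_zero, map_sub] at this
    exact this
  obtain ⟨c, hc, he⟩ := exists_left h1
  refine ⟨adjoint c, fun x => ?_, ?_⟩
  · have h2 : ‖adjoint c‖ ≤ 1 := by
      rw [LinearIsometryEquiv.norm_map]
      exact opNorm_le_bound _ zero_le_one fun y => by rw [one_mul]; exact hc y
    exact ((adjoint c).le_opNorm x).trans (mul_le_of_le_one_left (norm_nonneg _) h2)
  · have := congrArg adjoint he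
    rw [adjoint_comp, adjoint_adjoint, adjoint_adjoint] at this
    exact this

/-- A sequence of disjoint parts of one Schatten class operator has two terms which are close. -/
theorem exists_close {h : H →L[ℂ] K} (hc : IsCompactOperator h) {p : ℝ} (hp : 1 ≤ p)
    (hfin : trPow p h < ∞) (z : ℕ → H →L[ℂ] K) (hz1 : ∀ n, adjoint (z n) ∘L (h - z n) = 0)
    (hz2 : ∀ n, (h - z n) ∘L adjoint (z n) = 0) {ε : ℝ≥0∞} (hε : 0 < ε) :
    ∃ m n, m < n ∧ np p (z m - z n) < ε := by
  classical
  have hp0 : 0 < p := by linarith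
  -- reduce to finite ε
  wlog hεt : ε ≠ ∞ generalizing ε
  · obtain ⟨m, n, hmn, hlt⟩ := this (ε := 1) one_pos ENNReal.one_ne_top
    refine ⟨m, n, hmn, hlt.trans_le ?_⟩
    push Not at hεt
    rw [hεt]
    exact le_top
  obtain ⟨ι, b, hb⟩ := exists_singBasis h (compact_star_mul hc)
  have hε4 : 0 < ε / 4 := ENNReal.div_pos hε.ne' (by norm_num)
  obtain ⟨F, hF⟩ := exists_tail hb hc hp0 hfin hε4
  -- compactness
  have hK : IsCompact (closure (h '' Metric.closedBall 0 1)) :=
    hc.isCompact_closure_image_closedBall 1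
  have hmem : ∀ n, (fun k : F => z n (b k)) ∈
      Set.pi Set.univ (fun _ : F => closure (h '' Metric.closedBall 0 1)) := by
    intro n k _
    obtain ⟨c, hc1, hc2⟩ := exists_right (hz2 n)
    apply subset_closure
    refine ⟨c (b k), ?_, ?_⟩
    · rw [mem_closedBall_zero_iff]
      exact (hc1 _).trans (le_of_eq (b.orthonormal.1 _))
    · change h (c (b k)) = z n (b k)
      rw [hc2]
      rfl
  obtain ⟨y, _, φ, hφ, hlim⟩ := (isCompact_univ_pi (fun _ : F => hK)).tendsto_subseq hmem
  have hlim' : ∀ k : F, Tendsto (fun n => z (φ n) (b k)) atTop (𝓝 (y k)) := by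
    intro k
    exact (tendsto_pi_nhds.1 hlim) k
  -- choose δ
  obtain ⟨δ, hδ0, hδ⟩ : ∃ δ : ℝ≥0∞, 0 < δ ∧ (F.card : ℝ≥0∞) * (2 * δ) < ε / 4 := by
    refine ⟨(ε / 4) / (4 * (F.card + 1)), ?_, ?_⟩
    · apply ENNReal.div_pos hε4.ne'
      finiteness
    · have h4 : (F.card : ℝ≥0∞) * (2 * ((ε / 4) / (4 * (F.card + 1)))) ≤ (ε / 4) / 2 := by
        have e1 : (F.card : ℝ≥0∞) * (2 * ((ε / 4) / (4 * (F.card + 1)))) =
            (ε / 4) * ((F.card * 2) / (4 * (F.card + 1))) := by
          rw [ENNReal.div_eq_inv_mul (a := ε / 4), ENNReal.div_eq_inv_mul (a := (F.card : ℝ≥0∞) * 2)]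
          ring
        rw [e1, ENNReal.div_eq_inv_mul (a := ε / 4) (b := 2), mul_comm (2⁻¹)]
        gcongr
        apply ENNReal.div_le_of_le_mul
        calc (F.card : ℝ≥0∞) * 2 ≤ (F.card + 1) * 2 := by gcongr; exact le_self_add
          _ = 2⁻¹ * (4 * (F.card + 1)) := by
            rw [show (4 : ℝ≥0∞) = 2 * 2 by norm_num, ← mul_assoc, ← mul_assoc,
              ENNReal.inv_mul_cancel (by norm_num) (by norm_num), one_mul, mul_comm]
      refine h4.trans_lt ?_
      exact ENNReal.half_lt_self hε4.ne' (by finiteness)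
  have hev : ∀ᶠ n in atTop, ∀ k : F, ‖z (φ n) (b k) - y k‖ₑ < δ := by
    rw [eventually_all]
    intro k
    have h1 : Tendsto (fun n => ‖z (φ n) (b k) - y k‖ₑ) atTop (𝓝 0) := by
      have h2 := (hlim' k).sub_const (y k)
      rw [sub_self] at h2
      have h3 := h2.enorm
      rwa [enorm_zero] at h3
    exact h1.eventually (gt_mem_nhds hδ0)
  obtain ⟨N, hN⟩ := eventually_atTop.1 hev
  refine ⟨φ N, φ (N + 1), hφ (Nat.lt_succ_self N), ?_⟩
  set m := φ N
  set n := φ (N + 1)
  have hzc : ∀ n, IsCompactOperator (z n) := by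
    intro n
    obtain ⟨c, _, hc2⟩ := exists_left (hz1 n)
    rw [hc2]
    exact hc.clm_comp c
  have htail : ∀ n, np p (z n - z n ∘L RF b F) < ε / 4 := by
    intro n
    obtain ⟨c, hc1, hc2⟩ := exists_left (hz1 n)
    refine lt_of_le_of_lt ?_ hF
    have e1 : z n - z n ∘L RF b F = c ∘L (h - h ∘L RF b F) := by
      conv_lhs => rw [hc2]
      rw [ContinuousLinearMap.comp_sub, ContinuousLinearMap.comp_assoc]
    rw [e1, np, np]
    gcongr
    exact trPow_comp_left hc1 (tail_compact b hc F) hp0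
  have hhead : np p ((z m - z n) ∘L RF b F) < ε / 4 := by
    rw [comp_RF]
    refine lt_of_le_of_lt (np_sum_le hp F _ fun k => rk_compact _ _) ?_
    refine lt_of_le_of_lt (Finset.sum_le_card_nsmul F _ (2 * δ) ?_) ?_
    · intro k hk
      rw [np_rk b k _ hp0, sub_apply]
      have h1 := (hN N le_rfl ⟨k, hk⟩).le
      have h2 := (hN (N + 1) (Nat.le_succ N) ⟨k, hk⟩).le
      have e1 : z m (b k) - z n (b k) = (z m (b k) - y ⟨k, hk⟩) - (z n (b k) - y ⟨k, hk⟩) := by abel
      rw [e1]
      refine (enorm_sub_le).trans ?_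
      rw [two_mul]
      exact add_le_add h1 h2
    · rw [nsmul_eq_mul]
      exact hδ
  have hsplit : z m - z n = (z m - z n) ∘L RF b F +
      ((z m - z m ∘L RF b F) + (-(z n - z n ∘L RF b F))) := by
    ext x
    simp only [sub_apply, add_apply, neg_apply, ContinuousLinearMap.comp_apply]
    abel
  rw [hsplit]
  have c1 : IsCompactOperator ((z m - z n) ∘L RF b F) := ((hzc m).sub (hzc n)).comp_clm (RF b F)
  have c2 := tail_compact b (hzc m) F
  have c3 := tail_compact b (hzc n) F
  have c4 : IsCompactOperator (-(z n - z n ∘L RF b F)) := c3.neg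
  refine lt_of_le_of_lt (np_add_le hp c1 (c2.add c4)) ?_
  calc np p ((z m - z n) ∘L RF b F) + np p ((z m - z m ∘L RF b F) + (-(z n - z n ∘L RF b F)))
      ≤ np p ((z m - z n) ∘L RF b F) +
        (np p (z m - z m ∘L RF b F) + np p (-(z n - z n ∘L RF b F))) := by
        gcongr
        exact np_add_le hp c2 c4
    _ < ε / 4 + (ε / 4 + ε / 4) := by
        rw [np_neg hp0 c3]
        exact ENNReal.add_lt_add hhead (ENNReal.add_lt_add (htail m) (htail n))
    _ ≤ ε := by
        calc ε / 4 + (ε / 4 + ε / 4) ≤ ε / 4 + (ε / 4 + ε / 4) + ε / 4 := le_self_add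
          _ = 4 * (ε / 4) := by ring
          _ = ε := ENNReal.mul_div_cancel (by norm_num) (by norm_num)

end Pool.Agent.H776R2.SchDil
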