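import Mathlib
import Pool.Agent.Helper872.Sch.Disj
set_option autoImplicit false
set_option linter.unusedSectionVars false
open scoped ENNReal InnerProductSpace Topology
open Module ContinuousLinearMap Filter
open Pool.Agent.Helper872.Sch

namespace Pool.Agent.H776R2.SchDil

universe u
variable {H K : Type u} [NormedAddCommGroup H] [InnerProductSpace ℂ H] [CompleteSpace H]
  [NormedAddCommGroup K] [InnerProductSpace ℂ K] [CompleteSpace K]

/-- strict tangent inequality for the power function -/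
theorem tangent {p : ℝ} (hp : 1 < p) {t s : ℝ} (ht : 0 ≤ t) (hs : 0 ≤ s) :
    t ^ p + p * t ^ (p - 1) * (s - t) ≤ s ^ p ∧
      (t ^ p + p * t ^ (p - 1) * (s - t) = s ^ p → s = t) := by
  rcases eq_or_lt_of_le ht with h0 | hpos
  · subst h0
    rw [Real.zero_rpow (by linarith), Real.zero_rpow (by linarith)]
    simp only [mul_zero, zero_mul, add_zero]
    refine ⟨Real.rpow_nonneg hs _, fun h => ?_⟩
    by_contra hne
    have : 0 < s ^ p := Real.rpow_pos_of_pos (lt_of_le_of_ne hs (Ne.symm hne)) _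
    linarith
  · have key : s ≠ t → t ^ p + p * t ^ (p - 1) * (s - t) < s ^ p := by
      intro hst
      have h1 := one_add_mul_self_lt_rpow_one_add (s := s / t - 1) (p := p)
        (by have : 0 ≤ s / t := by positivity
            linarith) (by
          intro h
          apply hst
          rw [sub_eq_zero, div_eq_one_iff_eq hpos.ne'] at h
          exact h) hp
      rw [add_sub_cancel, Real.div_rpow hs ht] at h1
      have hmr : 0 < t ^ p := Real.rpow_pos_of_pos hpos _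
      have h2 : t ^ p * (1 + p * (s / t - 1)) < s ^ p := by
        rwa [lt_div_iff₀ hmr, mul_comm] at h1
      have h3 : t ^ p = t ^ (p - 1) * t := by
        rw [Real.rpow_sub_one hpos.ne']
        field_simp
      calc t ^ p + p * t ^ (p - 1) * (s - t) = t ^ p * (1 + p * (s / t - 1)) := by
            rw [mul_add, mul_one]
            congr 1
            rw [h3]
            field_simp
        _ < s ^ p := h2
    refine ⟨?_, fun h => ?_⟩
    · by_cases hst : s = t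
      · rw [hst]; simp
      · exact (key hst).le
    · by_contra hst
      exact absurd h (key hst).ne

/-- equality in Jensen's inequality with a substochastic weight -/
theorem jensen_eq_case {ι : Type*} {p : ℝ} (hp : 1 < p) {w s : ι → ℝ} {t W : ℝ}
    (hw0 : ∀ i, 0 ≤ w i) (hs0 : ∀ i, 0 ≤ s i) (ht : 0 ≤ t) (hw : HasSum w W) (hW : W ≤ 1)
    {m : ℝ} (h1 : HasSum (fun i => w i * s i) m) (hm : t ≤ m)
    (h2 : HasSum (fun i => w i * s i ^ p) (t ^ p)) (i : ι) : w i = 0 ∨ s i = t := by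
  have hp0 : 0 < p := by linarith
  have h3 : HasSum (fun i => w i * (s i ^ p - (t ^ p + p * t ^ (p - 1) * (s i - t))))
      (t ^ p - ((t ^ p - p * t ^ (p - 1) * t) * W + p * t ^ (p - 1) * m)) := by
    have h4 := h2.sub ((hw.mul_left (t ^ p - p * t ^ (p - 1) * t)).add
      (h1.mul_left (p * t ^ (p - 1))))
    have h5 : (fun i => w i * s i ^ p - ((t ^ p - p * t ^ (p - 1) * t) * w i
        + p * t ^ (p - 1) * (w i * s i))) =
        fun i => w i * (s i ^ p - (t ^ p + p * t ^ (p - 1) * (s i - t))) := by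
      ext i
      ring
    rw [h5] at h4
    exact h4
  have hnn : ∀ i, 0 ≤ w i * (s i ^ p - (t ^ p + p * t ^ (p - 1) * (s i - t))) := fun i =>
    mul_nonneg (hw0 i) (sub_nonneg.2 (tangent hp ht (hs0 i)).1)
  have htt : t ^ (p - 1) * t = t ^ p := by
    rcases eq_or_lt_of_le ht with h0 | hpos
    · rw [← h0, mul_zero, Real.zero_rpow hp0.ne']
    · rw [Real.rpow_sub_one hpos.ne']
      field_simp
  have hW0 : 0 ≤ W := hw.nonneg hw0
  have hle : t ^ p - ((t ^ p - p * t ^ (p - 1) * t) * W + p * t ^ (p - 1) * m) ≤ 0 := by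
    have e1 : p * t ^ (p - 1) * t = p * t ^ p := by rw [mul_assoc, htt]
    rw [e1]
    have e2 : p * t ^ p ≤ p * t ^ (p - 1) * m := by
      rw [← e1]
      have : 0 ≤ p * t ^ (p - 1) := by positivity
      exact mul_le_mul_of_nonneg_left hm this
    have e3 : 0 ≤ t ^ p := Real.rpow_nonneg ht _
    nlinarith [mul_nonneg (mul_nonneg e3 (sub_nonneg.2 hp.le)) (sub_nonneg.2 hW)]
  have h0 : t ^ p - ((t ^ p - p * t ^ (p - 1) * t) * W + p * t ^ (p - 1) * m) = 0 :=
    le_antisymm hle (h3.nonneg hnn)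
  rw [h0] at h3
  have h6 := congrFun ((hasSum_zero_iff_of_nonneg hnn).1 h3) i
  rcases mul_eq_zero.1 h6 with h7 | h7
  · exact Or.inl h7
  · right
    exact (tangent hp ht (hs0 i)).2 (by linarith)

theorem toR {ι : Type*} {f : ι → ℝ} {s : ℝ} (hf : ∀ i, 0 ≤ f i) (hs : 0 ≤ s)
    (h : ∑' i, ENNReal.ofReal (f i) = ENNReal.ofReal s) : HasSum f s := by
  have h1 : ∑' i, ENNReal.ofReal (f i) ≠ ∞ := by
    rw [h]; exact ENNReal.ofReal_ne_top
  have h2 := ENNReal.hasSum_toReal h1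
  have h3 : (fun i => (ENNReal.ofReal (f i)).toReal) = f := by
    ext i
    exact ENNReal.toReal_ofReal (hf i)
  rw [h3] at h2
  have h4 : ∑' i, f i = s := by
    have := ENNReal.ofReal_tsum_of_nonneg hf h2.summable
    rw [h] at this
    have h5 := congrArg ENNReal.toReal this
    rwa [ENNReal.toReal_ofReal (tsum_nonneg hf), ENNReal.toReal_ofReal hs] at h5
  rwa [h4] at h2

theorem toR' {ι : Type*} {f : ι → ℝ≥0∞} (hf : ∑' i, f i ≠ ∞) :
    HasSum (fun i => (f i).toReal) (∑' i, f i).toReal := by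
  have h := ENNReal.hasSum_toReal hf
  rwa [← ENNReal.tsum_toReal_eq (fun i => ENNReal.ne_top_of_tsum_ne_top hf i)] at h

/-- equality in the bi-orthonormal inequality -/
theorem biorth_eq_case {κ : Type*} {e : κ → H} {f : κ → K} (he : Orthonormal ℂ e)
    (hf : Orthonormal ℂ f) {a : H →L[ℂ] K} (hc : IsCompactOperator (adjoint a ∘L a))
    {p : ℝ} (hp : 1 < p) (hfin : trPow p a ≠ ∞)
    (heq : trPow p a ≤ ∑' j, ‖⟪f j, a (e j)⟫_ℂ‖ₑ ^ p) :
    (∀ j, a (e j) = ⟪f j, a (e j)⟫_ℂ • f j) ∧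
      ∀ x : H, (∀ j, ⟪e j, x⟫_ℂ = 0) → a x = 0 := by
  have hp0 : 0 < p := by linarith
  obtain ⟨ι, b, hb⟩ := exists_singBasis a hc
  rw [trPow_eq hb hc hp0] at heq hfin
  let ω : κ → ι → ℝ≥0∞ := fun j k => (‖⟪b k, e j⟫_ℂ‖ₑ ^ 2 + ‖⟪lsv b a k, f j⟫_ℂ‖ₑ ^ 2) / 2
  have hω1 : ∀ j, ∑' k, ω j k ≤ 1 := by
    intro j
    simp only [ω, ENNReal.div_eq_inv_mul]
    rw [ENNReal.tsum_mul_left, ENNReal.tsum_add, ← ENNReal.div_eq_inv_mul]
    apply ENNReal.div_le_of_le_mul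
    rw [one_mul, parseval, enorm_eq_one he]
    have := lsv_bessel hb (f j)
    rw [enorm_eq_one hf] at this
    calc (1 : ℝ≥0∞) ^ 2 + _ ≤ 1 ^ 2 + 1 ^ 2 := by gcongr
      _ = 2 := by norm_num
  have hω2 : ∀ k, ∑' j, ω j k ≤ 1 := by
    intro k
    simp only [ω, ENNReal.div_eq_inv_mul]
    rw [ENNReal.tsum_mul_left, ENNReal.tsum_add, ← ENNReal.div_eq_inv_mul]
    apply ENNReal.div_le_of_le_mul
    rw [one_mul]
    have h1 := bessel he (b k)
    have h2 := (bessel hf (lsv b a k)).trans (pow_le_pow_left' (lsv_norm_le b a k) 2)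
    rw [enorm_eq_one b.orthonormal] at h1
    simp only [enorm_inner_symm (b k), enorm_inner_symm (lsv b a k)]
    calc _ ≤ (1 : ℝ≥0∞) ^ 2 + 1 ^ 2 := add_le_add h1 h2
      _ = 2 := by norm_num
  have hterm : ∀ j, ‖⟪f j, a (e j)⟫_ℂ‖ₑ ≤ ∑' k, ω j k * ‖a (b k)‖ₑ := by
    intro j
    have h1 := ((b.hasSum_repr (e j)).mapL a).mapL (innerSL ℂ (f j))
    have h2 : HasSum (fun k => ⟪b k, e j⟫_ℂ * ⟪f j, a (b k)⟫_ℂ) ⟪f j, a (e j)⟫_ℂ := by
      simpa [HilbertBasis.repr_apply_apply] using h1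
    rw [← h2.tsum_eq]
    refine (enorm_tsum_le_tsum_enorm).trans ?_
    refine ENNReal.tsum_le_tsum fun k => ?_
    rw [enorm_mul]
    have h3 : ‖⟪f j, a (b k)⟫_ℂ‖ₑ = ‖a (b k)‖ₑ * ‖⟪lsv b a k, f j⟫_ℂ‖ₑ := by
      conv_lhs => rw [lsv_spec b a k]
      rw [inner_smul_right, enorm_mul, enorm_inner_symm]
      congr 1
      rw [← ofReal_norm, Complex.norm_real, norm_norm, ofReal_norm]
    rw [h3]
    calc ‖⟪b k, e j⟫_ℂ‖ₑ * (‖a (b k)‖ₑ * ‖⟪lsv b a k, f j⟫_ℂ‖ₑ)
        = (‖⟪b k, e j⟫_ℂ‖ₑ * ‖⟪lsv b a k, f j⟫_ℂ‖ₑ) * ‖a (b k)‖ₑ := by ring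
      _ ≤ _ := by
        gcongr
        exact mul_le_half _ _
  -- the chain of inequalities
  have hJ : ∀ j, ‖⟪f j, a (e j)⟫_ℂ‖ₑ ^ p ≤ ∑' k, ω j k * ‖a (b k)‖ₑ ^ p := by
    intro j
    refine le_trans ?_ (jensen_ge (hω1 j) hp.le)
    gcongr
    exact hterm j
  have hswap : ∑' j, ∑' k, ω j k * ‖a (b k)‖ₑ ^ p = ∑' k, (∑' j, ω j k) * ‖a (b k)‖ₑ ^ p := by
    rw [ENNReal.tsum_comm]
    simp only [ENNReal.tsum_mul_right]
  have hL : ∀ k, (∑' j, ω j k) * ‖a (b k)‖ₑ ^ p ≤ ‖a (b k)‖ₑ ^ p := fun k =>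
    mul_le_of_le_one_left zero_le (hω2 k)
  have hfinD : ∑' j, ∑' k, ω j k * ‖a (b k)‖ₑ ^ p ≠ ∞ := by
    rw [hswap]
    exact ((ENNReal.tsum_le_tsum hL).trans_lt (lt_top_iff_ne_top.2 hfin)).ne
  have hfinE : ∑' j, ‖⟪f j, a (e j)⟫_ℂ‖ₑ ^ p ≠ ∞ :=
    ((ENNReal.tsum_le_tsum hJ).trans_lt (lt_top_iff_ne_top.2 hfinD)).ne
  have eqJ : ∀ j, ‖⟪f j, a (e j)⟫_ℂ‖ₑ ^ p = ∑' k, ω j k * ‖a (b k)‖ₑ ^ p :=
    eq_of_tsum_le hJ (by
      rw [hswap]
      exact (ENNReal.tsum_le_tsum hL).trans heq) hfinE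
  have eqL : ∀ k, (∑' j, ω j k) * ‖a (b k)‖ₑ ^ p = ‖a (b k)‖ₑ ^ p :=
    eq_of_tsum_le hL (by
      rw [← hswap]
      exact heq.trans (ENNReal.tsum_le_tsum hJ)) (by rw [← hswap]; exact hfinD)
  have hωtop : ∀ j k, ω j k ≠ ∞ := fun j k =>
    ((ENNReal.le_tsum k).trans (hω1 j)).trans_lt ENNReal.one_lt_top |>.ne
  have hatop : ∀ k, ‖a (b k)‖ₑ ≠ ∞ := fun k => enorm_ne_top
  -- consequence of equality in Jensen
  have key : ∀ j k, ω j k = 0 ∨ ‖a (b k)‖ = ‖⟪f j, a (e j)⟫_ℂ‖ := by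
    intro j k
    have hms : ∑' k, ω j k * ‖a (b k)‖ₑ ≠ ∞ := by
      have h1 : ∀ k, ω j k * ‖a (b k)‖ₑ ≤ ω j k * ENNReal.ofReal ‖a‖ := by
        intro k
        gcongr
        rw [← ofReal_norm]
        apply ENNReal.ofReal_le_ofReal
        have := a.le_opNorm (b k)
        rwa [b.orthonormal.1, mul_one] at this
      refine ((ENNReal.tsum_le_tsum h1).trans_lt ?_).ne
      rw [ENNReal.tsum_mul_right]
      exact ENNReal.mul_lt_top ((hω1 j).trans_lt ENNReal.one_lt_top) ENNReal.ofReal_lt_top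
    have hWt : ∑' k, ω j k ≠ ∞ := ((hω1 j).trans_lt ENNReal.one_lt_top).ne
    have s1 := toR' hWt
    have s2 := toR' hms
    have s3 := toR' (f := fun k => ω j k * ‖a (b k)‖ₑ ^ p) (by rw [← eqJ j]; finiteness)
    rw [← eqJ j, ← ENNReal.toReal_rpow, toReal_enorm] at s3
    simp only [ENNReal.toReal_mul, toReal_enorm, ← ENNReal.toReal_rpow] at s2 s3
    have hW1 : (∑' k, ω j k).toReal ≤ 1 := by
      rw [← ENNReal.toReal_one]
      exact ENNReal.toReal_mono ENNReal.one_ne_top (hω1 j)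
    have hm1 : ‖⟪f j, a (e j)⟫_ℂ‖ ≤ (∑' k, ω j k * ‖a (b k)‖ₑ).toReal := by
      rw [← toReal_enorm]
      exact ENNReal.toReal_mono hms (hterm j)
    rcases jensen_eq_case hp (fun k => ENNReal.toReal_nonneg) (fun k => norm_nonneg _)
      (norm_nonneg _) s1 hW1 s2 hm1 s3 k with h | h
    · left
      exact ((ENNReal.toReal_eq_zero_iff _).1 h).resolve_right (hωtop j k)
    · exact Or.inr h
  have key2 : ∀ j k, ⟪b k, e j⟫_ℂ = 0 ∨ ‖a (b k)‖ = ‖⟪f j, a (e j)⟫_ℂ‖ := by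
    intro j k
    rcases key j k with h | h
    · left
      have h1 : ‖⟪b k, e j⟫_ℂ‖ₑ ^ 2 + ‖⟪lsv b a k, f j⟫_ℂ‖ₑ ^ 2 = 0 := by
        have h2 : (‖⟪b k, e j⟫_ℂ‖ₑ ^ 2 + ‖⟪lsv b a k, f j⟫_ℂ‖ₑ ^ 2) / 2 = 0 := h
        rcases ENNReal.div_eq_zero_iff.1 h2 with h3 | h3
        · exact h3
        · exact absurd h3 (by norm_num)
      have h4 := (add_eq_zero.1 h1).1
      simpa using h4
    · exact Or.inr h
  constructor
  · intro j
    have h1 : (adjoint a) (a (e j)) = ((‖⟪f j, a (e j)⟫_ℂ‖ ^ 2 : ℝ) : ℂ) • e j := by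
      apply ext_basis b
      intro k
      have h5 : ⟪b k, (adjoint a) (a (e j))⟫_ℂ = ((‖a (b k)‖ ^ 2 : ℝ) : ℂ) * ⟪b k, e j⟫_ℂ := by
        rw [adjoint_inner_right, ← adjoint_inner_left, hb k, inner_smul_left, Complex.conj_ofReal]
      rw [h5, inner_smul_right]
      rcases key2 j k with h | h
      · rw [h, mul_zero, mul_zero]
      · rw [h]
    have h2 : ‖a (e j)‖ = ‖⟪f j, a (e j)⟫_ℂ‖ := by
      have h3 : ⟪e j, (adjoint a) (a (e j))⟫_ℂ = ((‖a (e j)‖ ^ 2 : ℝ) : ℂ) := by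
        rw [adjoint_inner_right, inner_self_eq_norm_sq_to_K]
        norm_cast
      rw [h1, inner_smul_right, inner_self_eq_norm_sq_to_K, he.1] at h3
      have h4 : ‖⟪f j, a (e j)⟫_ℂ‖ ^ 2 = ‖a (e j)‖ ^ 2 := by
        have h5 : (((‖⟪f j, a (e j)⟫_ℂ‖ ^ 2 : ℝ) : ℂ)) = ((‖a (e j)‖ ^ 2 : ℝ) : ℂ) := by
          rw [← h3]; simp
        exact_mod_cast h5
      exact ((pow_left_inj₀ (norm_nonneg _) (norm_nonneg _) two_ne_zero).1 h4).symm
    -- equality in Cauchy-Schwarz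
    have h6 : ‖a (e j) - ⟪f j, a (e j)⟫_ℂ • f j‖ ^ 2 = 0 := by
      have h7 : ‖a (e j) - ⟪f j, a (e j)⟫_ℂ • f j‖ ^ 2 =
          ‖a (e j)‖ ^ 2 - ‖⟪f j, a (e j)⟫_ℂ‖ ^ 2 := by
        rw [@norm_sub_sq ℂ, inner_smul_right, norm_smul, hf.1, mul_one]
        have h8 : ⟪f j, a (e j)⟫_ℂ * ⟪a (e j), f j⟫_ℂ = ((‖⟪f j, a (e j)⟫_ℂ‖ ^ 2 : ℝ) : ℂ) := by
          rw [← inner_conj_symm (a (e j)) (f j), Complex.mul_conj']
          norm_cast
        rw [h8]
        simp only [RCLike.re_to_complex, Complex.ofReal_re]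
        ring
      rw [h7, h2, sub_self]
    have h9 : a (e j) - ⟪f j, a (e j)⟫_ℂ • f j = 0 := by
      simpa using h6
    exact sub_eq_zero.1 h9
  · intro x hx
    -- every relevant b k is orthogonal to x
    have h1 : ∀ k, a (b k) = 0 ∨ ⟪b k, x⟫_ℂ = 0 := by
      intro k
      by_cases h0 : a (b k) = 0
      · exact Or.inl h0
      right
      have h2 : ∑' j, ω j k = 1 := by
        have h3 := eqL k
        have h4 : ‖a (b k)‖ₑ ^ p ≠ 0 := by
          intro h5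
          rw [ENNReal.rpow_eq_zero_iff_of_pos hp0] at h5
          exact h0 (by simpa using h5)
        have h5 : ‖a (b k)‖ₑ ^ p ≠ ∞ := by finiteness
        have h6 : (∑' j, ω j k) * ‖a (b k)‖ₑ ^ p = 1 * ‖a (b k)‖ₑ ^ p := by rw [one_mul]; exact h3
        exact (ENNReal.mul_left_inj h4 h5).1 h6
      have h3 : ∑' j, ‖⟪e j, b k⟫_ℂ‖ₑ ^ 2 = 1 := by
        have h4 := bessel he (b k)
        have h5 := (bessel hf (lsv b a k)).trans (pow_le_pow_left' (lsv_norm_le b a k) 2)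
        rw [enorm_eq_one b.orthonormal, one_pow] at h4
        rw [one_pow] at h5
        refine le_antisymm h4 ?_
        simp only [ω, ENNReal.div_eq_inv_mul] at h2
        rw [ENNReal.tsum_mul_left, ENNReal.tsum_add] at h2
        simp only [enorm_inner_symm (b k), enorm_inner_symm (lsv b a k)] at h2
        by_contra hlt
        push Not at hlt
        have h6 : (∑' j, ‖⟪e j, b k⟫_ℂ‖ₑ ^ 2) + ∑' j, ‖⟪f j, lsv b a k⟫_ℂ‖ₑ ^ 2 < 1 + 1 :=
          ENNReal.add_lt_add_of_lt_of_le (ne_top_of_le_ne_top ENNReal.one_ne_top h5) hlt h5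
        have h7 : (2 : ℝ≥0∞) * (2⁻¹ * ((∑' j, ‖⟪e j, b k⟫_ℂ‖ₑ ^ 2) +
            ∑' j, ‖⟪f j, lsv b a k⟫_ℂ‖ₑ ^ 2)) = 2 * 1 := by rw [h2]
        rw [← mul_assoc, ENNReal.mul_inv_cancel (by norm_num) (by norm_num), one_mul, mul_one] at h7
        rw [h7] at h6
        norm_num at h6
      -- add x to the family
      by_cases hx0 : x = 0
      · rw [hx0, inner_zero_right]
      have hxn : ‖x‖ ≠ 0 := by simpa using hx0
      let g : Unit ⊕ κ → H := Sum.elim (fun _ => (((‖x‖⁻¹ : ℝ) : ℂ) • x)) e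
      have hg : Orthonormal ℂ g := by
        constructor
        · rintro (_ | j)
          · simp only [g, Sum.elim_inl]
            rw [norm_smul, Complex.norm_real, norm_inv, norm_norm, inv_mul_cancel₀ hxn]
          · exact he.1 j
        · rintro (_ | i) (_ | j) hij
          · exact absurd rfl hij
          · simp only [g, Sum.elim_inl, Sum.elim_inr]
            rw [inner_smul_left, ← inner_conj_symm, hx j]
            simp
          · simp only [g, Sum.elim_inl, Sum.elim_inr]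
            rw [inner_smul_right, hx i, mul_zero]
          · exact he.2 (fun h => hij (by rw [h]))
      have h4 := bessel hg (b k)
      rw [enorm_eq_one b.orthonormal, one_pow, Summable.tsum_sum ENNReal.summable ENNReal.summable,
        tsum_fintype, Finset.univ_unique, Finset.sum_singleton] at h4
      change ‖⟪((‖x‖⁻¹ : ℝ) : ℂ) • x, b k⟫_ℂ‖ₑ ^ 2 + ∑' j, ‖⟪e j, b k⟫_ℂ‖ₑ ^ 2 ≤ 1 at h4
      rw [h3] at h4
      have h5 : ‖⟪((‖x‖⁻¹ : ℝ) : ℂ) • x, b k⟫_ℂ‖ₑ ^ 2 = 0 := by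
        have h6 : ‖⟪((‖x‖⁻¹ : ℝ) : ℂ) • x, b k⟫_ℂ‖ₑ ^ 2 + 1 ≤ 0 + 1 := by rw [zero_add]; exact h4
        exact le_antisymm ((ENNReal.add_le_add_iff_right ENNReal.one_ne_top).1 h6) zero_le
      have h7 : ⟪((‖x‖⁻¹ : ℝ) : ℂ) • x, b k⟫_ℂ = 0 := by simpa using h5
      rw [inner_smul_left] at h7
      rcases mul_eq_zero.1 h7 with h8 | h8
      · exfalso
        rw [Complex.conj_ofReal] at h8
        have : (‖x‖⁻¹ : ℝ) = 0 := by exact_mod_cast h8
        exact hxn (inv_eq_zero.1 this)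
      · rw [← inner_conj_symm, h8, map_zero]
    have h2 := (b.hasSum_repr x).mapL a
    have h3 : (fun k => a (b.repr x k • b k)) = fun _ => 0 := by
      ext k
      rw [map_smul, HilbertBasis.repr_apply_apply]
      rcases h1 k with h | h
      · rw [h, smul_zero]
      · rw [h, zero_smul]
    rw [h3] at h2
    exact h2.unique hasSum_zero

/-- strict convexity of the Schatten classes, `1 < p < ∞` -/
theorem eq_of_midpoint {A B : H →L[ℂ] K} (hA : IsCompactOperator A) (hB : IsCompactOperator B)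
    {p : ℝ} (hp : 1 < p) (h1 : trPow p A ≤ 1) (h2 : trPow p B ≤ 1)
    (h3 : 2 ^ p ≤ trPow p (A + B)) : A = B := by
  have hp0 : 0 < p := by linarith
  have hcC : IsCompactOperator (adjoint (A + B) ∘L (A + B)) := compact_star_mul (hA.add hB)
  obtain ⟨ι, b, hb⟩ := exists_singBasis (A + B) hcC
  have he : Orthonormal ℂ (fun k : {k // (A + B) (b k) ≠ 0} => b k) :=
    b.orthonormal.comp _ Subtype.val_injective
  have hf := lsv_orthonormal hb
  have hA1 := biorth_le he hf (compact_star_mul hA) hp.le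
  have hB1 := biorth_le he hf (compact_star_mul hB) hp.le
  rw [biorth_eq hb hcC hp0] at h3
  -- notation
  let x : {k // (A + B) (b k) ≠ 0} → ℝ≥0∞ := fun k => ‖⟪lsv b (A + B) k, A (b k)⟫_ℂ‖ₑ
  let y : {k // (A + B) (b k) ≠ 0} → ℝ≥0∞ := fun k => ‖⟪lsv b (A + B) k, B (b k)⟫_ℂ‖ₑ
  let c : {k // (A + B) (b k) ≠ 0} → ℝ≥0∞ := fun k => ‖⟪lsv b (A + B) k, (A + B) (b k)⟫_ℂ‖ₑ
  have hcx : ∀ k, c k ≤ x k + y k := by
    intro k
    simp only [c, x, y]
    rw [add_apply, inner_add_right]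
    exact enorm_add_le _ _
  -- ((x+y)/2)^p ≤ (x^p + y^p)/2
  have hconv : ∀ k, 2 * ((x k + y k) / 2) ^ p ≤ x k ^ p + y k ^ p := fun k =>
    two_point_ge (x k) (y k) hp.le
  have hsx : ∑' k, x k ^ p ≤ 1 := hA1.trans h1
  have hsy : ∑' k, y k ^ p ≤ 1 := hB1.trans h2
  have hhalf : ∀ t : ℝ≥0∞, 2 ^ p * (t / 2) ^ p = t ^ p := by
    intro t
    rw [← ENNReal.mul_rpow_of_nonneg _ _ hp0.le, ENNReal.mul_div_cancel (by norm_num) (by norm_num)]
  have h2p0 : (2 : ℝ≥0∞) ^ p ≠ 0 := by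
    intro h
    rw [ENNReal.rpow_eq_zero_iff_of_pos hp0] at h
    norm_num at h
  have h2pt : (2 : ℝ≥0∞) ^ p ≠ ∞ := by finiteness
  have hlow : 1 ≤ ∑' k, (c k / 2) ^ p := by
    have e1 : ∑' k, c k ^ p = 2 ^ p * ∑' k, (c k / 2) ^ p := by
      rw [← ENNReal.tsum_mul_left]
      congr 1
      ext k
      rw [hhalf]
    rw [show ∑' k : {k // (A + B) (b k) ≠ 0}, ‖⟪lsv b (A + B) k, (A + B) (b k)⟫_ℂ‖ₑ ^ p
      = ∑' k, c k ^ p from rfl, e1] at h3
    have h4 : 2 ^ p * 1 ≤ 2 ^ p * ∑' k, (c k / 2) ^ p := by rw [mul_one]; exact h3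
    exact (ENNReal.mul_le_mul_iff_right h2p0 h2pt).1 h4
  have c1 : ∀ k, 2 * (c k / 2) ^ p ≤ 2 * ((x k + y k) / 2) ^ p := by
    intro k
    gcongr
    exact hcx k
  have hup : ∑' k, (x k ^ p + y k ^ p) ≤ 2 := by
    rw [ENNReal.tsum_add]
    calc _ ≤ (1 : ℝ≥0∞) + 1 := add_le_add hsx hsy
      _ = 2 := by norm_num
  have hlow2 : 2 ≤ ∑' k, 2 * (c k / 2) ^ p := by
    rw [ENNReal.tsum_mul_left]
    calc (2 : ℝ≥0∞) = 2 * 1 := by norm_num
      _ ≤ _ := by gcongr
  have hcfin : ∑' k, 2 * (c k / 2) ^ p ≠ ∞ :=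
    ((ENNReal.tsum_le_tsum fun k => (c1 k).trans (hconv k)).trans hup).trans_lt (by norm_num) |>.ne
  have e1 : ∀ k, 2 * (c k / 2) ^ p = x k ^ p + y k ^ p :=
    eq_of_tsum_le (fun k => (c1 k).trans (hconv k)) (hup.trans hlow2) hcfin
  have e2 : ∀ k, 2 * ((x k + y k) / 2) ^ p = x k ^ p + y k ^ p := fun k =>
    le_antisymm (hconv k) (by rw [← e1 k]; exact c1 k)
  have hxt : ∀ k, x k ≠ ∞ := fun k => enorm_ne_top
  have hyt : ∀ k, y k ≠ ∞ := fun k => enorm_ne_top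
  have hct : ∀ k, c k ≠ ∞ := fun k => enorm_ne_top
  -- c = x + y
  have e3 : ∀ k, c k = x k + y k := by
    intro k
    have h5 : (c k / 2) ^ p = ((x k + y k) / 2) ^ p := by
      have h6 : 2 * (c k / 2) ^ p = 2 * ((x k + y k) / 2) ^ p := by rw [e1, e2]
      exact (ENNReal.mul_right_inj (by norm_num) (by norm_num)).1 h6
    have h7 := congrArg (fun t : ℝ≥0∞ => 2 ^ p * t) h5
    simp only [hhalf] at h7
    exact (ENNReal.rpow_left_injective hp0.ne') h7
  -- x = y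
  have e4 : ∀ k, x k = y k := by
    intro k
    have h5 := congrArg ENNReal.toReal (e2 k)
    rw [ENNReal.toReal_mul, ← ENNReal.toReal_rpow, ENNReal.toReal_div,
      ENNReal.toReal_add (hxt k) (hyt k), ENNReal.toReal_add (by finiteness [hxt k])
      (by finiteness [hyt k]), ← ENNReal.toReal_rpow, ← ENNReal.toReal_rpow] at h5
    have h6 : (x k).toReal = (y k).toReal := by
      by_contra hne
      have h7 := (strictConvexOn_rpow hp).2 (x := (x k).toReal) (y := (y k).toReal)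
        ENNReal.toReal_nonneg ENNReal.toReal_nonneg hne
        (show (0 : ℝ) < 1 / 2 by norm_num) (show (0 : ℝ) < 1 / 2 by norm_num) (by norm_num)
      simp only [smul_eq_mul] at h7
      have h8 : 1 / 2 * (x k).toReal + 1 / 2 * (y k).toReal =
        ((x k).toReal + (y k).toReal) / 2 := by ring
      rw [h8] at h7
      have h9 : (2 : ℝ≥0∞).toReal = 2 := by norm_num
      rw [h9] at h5
      linarith
    exact (ENNReal.toReal_eq_toReal_iff' (hxt k) (hyt k)).1 h6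
  have hsum : ∑' k, x k ^ p = 1 := by
    refine le_antisymm hsx ?_
    have h5 : ∑' k, (x k ^ p + y k ^ p) = 2 * ∑' k, x k ^ p := by
      rw [← ENNReal.tsum_mul_left]
      congr 1
      ext k
      rw [← e4 k, two_mul]
    have h6 : 2 ≤ 2 * ∑' k, x k ^ p := by
      rw [← h5]
      refine hlow2.trans (le_of_eq ?_)
      congr 1
      ext k
      exact e1 k
    have h7 : 2 * 1 ≤ 2 * ∑' k, x k ^ p := by rw [mul_one]; exact h6
    exact (ENNReal.mul_le_mul_iff_right (by norm_num) (by norm_num)).1 h7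
  obtain ⟨q1, q2⟩ := biorth_eq_case he hf (compact_star_mul hA) hp
    (h1.trans_lt ENNReal.one_lt_top).ne (by rw [show ∑' j : {k // (A + B) (b k) ≠ 0},
      ‖⟪lsv b (A + B) j, A (b j)⟫_ℂ‖ₑ ^ p = 1 from hsum]; exact h1)
  -- A = C / 2 on every basis vector
  have hAC : ∀ k, (2 : ℂ) • A (b k) = (A + B) (b k) := by
    intro k
    by_cases hk : (A + B) (b k) = 0
    · have h5 : A (b k) = 0 := by
        apply q2
        rintro ⟨j, hj⟩
        apply b.orthonormal.2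
        rintro rfl
        exact hj hk
      rw [h5, hk, smul_zero]
    · have h5 := q1 ⟨k, hk⟩
      simp only at h5
      have h6 := e3 ⟨k, hk⟩
      have h7 := e4 ⟨k, hk⟩
      simp only [c, x, y] at h6 h7
      set α := ⟪lsv b (A + B) k, A (b k)⟫_ℂ with hα
      set β := ⟪lsv b (A + B) k, B (b k)⟫_ℂ with hβ
      have hαβ : ⟪lsv b (A + B) k, (A + B) (b k)⟫_ℂ = α + β := by
        rw [add_apply, inner_add_right]
      have hreal : ⟪lsv b (A + B) k, (A + B) (b k)⟫_ℂ = ((‖(A + B) (b k)‖ : ℝ) : ℂ) := by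
        have hn : ‖(A + B) (b k)‖ ≠ 0 := by simpa using hk
        simp only [lsv]
        rw [inner_smul_left, inner_self_eq_norm_sq_to_K, Complex.conj_ofReal]
        have : ((‖(A + B) (b k)‖⁻¹ : ℝ) : ℂ) * ((‖(A + B) (b k)‖ : ℝ) : ℂ) ^ 2 =
            ((‖(A + B) (b k)‖ : ℝ) : ℂ) := by
          rw [← Complex.ofReal_pow, ← Complex.ofReal_mul]
          congr 1
          field_simp
        exact this
      rw [hαβ] at h6 hreal
      -- α, β are equal and nonnegative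
      have h8 : ‖α + β‖ = ‖α‖ + ‖β‖ := by
        have := congrArg ENNReal.toReal h6
        rwa [ENNReal.toReal_add enorm_ne_top enorm_ne_top, toReal_enorm, toReal_enorm,
          toReal_enorm] at this
      have h9 : ‖α‖ = ‖β‖ := by
        have := congrArg ENNReal.toReal h7
        rwa [toReal_enorm, toReal_enorm] at this
      have hαeq : α = β := by
        have h10 : ‖α - β‖ ^ 2 = 0 := by
          have := parallelogram_law_with_norm ℂ α β
          rw [h8, h9] at this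
          nlinarith [this]
        have h11 : α - β = 0 := by simpa using h10
        exact sub_eq_zero.1 h11
      rw [h5, smul_smul, two_mul]
      nth_rewrite 2 [hαeq]
      rw [hreal]
      exact (lsv_spec b (A + B) k).symm
  have h2A : (2 : ℂ) • A = A + B := clm_ext_basis b fun k => by rw [smul_apply]; exact hAC k
  rw [two_smul] at h2A
  exact add_left_cancel h2A

end Pool.Agent.H776R2.SchDil
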